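import Pool.Agent.H.MP_6cdded_pr.B

open Finset Filter Topology MeasureTheory ProbabilityTheory

namespace Pool.Agent.Results.MP_6cdded_pr.Sets

/-- `A` is a `k`-ary chain: it carries a rooted tree (root `r`, parent map `π`) with at most `k`
children per vertex, in which every ancestor is below its descendants. -/
def Chain {n : ℕ} (k : ℕ) (lt : Fin n → Fin n → Prop) (A : Finset (Fin n)) : Prop :=
  ∃ r ∈ A, ∃ π : Fin n → Fin n, π r = r ∧ (∀ y ∈ A, π y ∈ A ∧ ∃ m, π^[m] y = r) ∧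
    (∀ x ∈ A, #{y ∈ A | y ≠ r ∧ π y = x} ≤ k) ∧ ∀ y ∈ A, ∀ m, π^[m] y ≠ y → lt (π^[m] y) y

/-- the `k`-width -/
noncomputable def wd {n : ℕ} (k : ℕ) (lt : Fin n → Fin n → Prop) : ℕ :=
  sInf {c | ∃ P : Finpartition (univ : Finset (Fin n)), (∀ A ∈ P.parts, Chain k lt A) ∧ #P.parts = c}

theorem result (k : ℕ) {Ω : Type} [MeasurableSpace Ω] (P : Measure Ω) [IsProbabilityMeasure P]
    (W : ℕ → Ω → ℝ × ℝ) (hm : ∀ i, Measurable (W i)) (hi : iIndepFun W P)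
    (hl : ∀ i, P.map (W i) = (volume.restrict (Set.Ioo 0 1)).prod (volume.restrict (Set.Ioo 0 1))) :
    Tendsto (fun n : ℕ => (∫ ω, (wd k (fun i j : Fin n =>
        max (W i ω).1 (W i ω).2 ≤ min (W j ω).1 (W j ω).2) : ℝ) ∂P) / n)
      atTop (𝓝 (1 / ((k : ℝ) + 1))) :=
  H.MP_6cdded_pr.main hm hi hl k (fun n ω i j => H.MP_6cdded_pr.S W n ω i j)
    (fun _ i j => H.MP_6cdded_pr.S_meas hm i j)
    (fun _ _ _ _ h => h) fun _ _ _ _ h => h.2

end Pool.Agent.Results.MP_6cdded_pr.Sets
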